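import Mathlib
import Pool.Agent.H463R3.PSLn

/-!
# Equality in the conjugate-generation bound is attained by elements of order three
-/

set_option autoImplicit false

open Matrix Matrix.SpecialLinearGroup
open scoped MatrixGroups

namespace Pool.Agent.Results.MP_462fed_al.NoninvolutionEquality

/-- The subgroup `⟨S, x⟩` of `Aut(S)`, where `S` is identified with its group of inner
automorphisms. -/
def extendBy (S : Type) [Group S] (x : MulAut S) : Subgroup (MulAut S) :=
  (MulAut.conj : S →* MulAut S).range ⊔ Subgroup.zpowers x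

/-- The set of all `m ≥ 1` such that some `m` (not necessarily distinct) conjugates of `x` in
`⟨S, x⟩` generate a subgroup of order divisible by `r`. -/
def generationNumbers (r : ℕ) (S : Type) [Group S] (x : MulAut S) : Set ℕ :=
  {m | 1 ≤ m ∧ ∃ y : Fin m → MulAut S,
    (∀ i, ∃ g ∈ extendBy S x, y i = g * x * g⁻¹) ∧
      r ∣ Nat.card (Subgroup.closure (Set.range y))}

/-- `β_{r,S}(x)`: the least element of `generationNumbers r S x`. -/
noncomputable def beta (r : ℕ) (S : Type) [Group S] (x : MulAut S) : ℕ :=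
  sInf (generationNumbers r S x)

/-- `b(r) = 3` if `r = 3`, and `b(r) = r - 1` if `r > 3`. -/
def b (r : ℕ) : ℕ := if r = 3 then 3 else r - 1

/-- The statement of Q1. -/
def Q1 : Prop :=
  ∀ (S : Type) [Group S] [Finite S], IsSimpleGroup S → (∃ u v : S, u * v ≠ v * u) →
    ∀ r : ℕ, r.Prime → r ≠ 2 → r ∣ Nat.card S →
      ∀ x : MulAut S, x ≠ 1 → beta r S x = b r → orderOf x = 2

/-! ### The counterexample -/

abbrev G := SpecialLinearGroup (Fin 4) (ZMod 3)
abbrev PS := Matrix.ProjectiveSpecialLinearGroup (Fin 4) (ZMod 3)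
abbrev V := Fin 4 → ZMod 3

/-- the quotient map -/
abbrev pr : G →* PS := QuotientGroup.mk' (Subgroup.center G)

/-- the composite `SL → PSL → Aut(PSL)` -/
noncomputable abbrev toAut : G →* MulAut PS := (MulAut.conj : PS →* MulAut PS).comp pr

/-- the elementary transvection `1 + E_{01}` -/
def t : G := SpecialLinearGroup.transvection (i := (0 : Fin 4)) (j := 1) (by decide) 1

instance : IsSimpleGroup PS := Pool.Agent.H463R3.PSLn.isSimpleGroup_PSL (by decide)

lemma pr_transvection_ne_one {i j : Fin 4} (hij : i ≠ j) :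
    pr (SpecialLinearGroup.transvection hij 1) ≠ 1 := by
  intro h
  rw [QuotientGroup.mk'_apply, QuotientGroup.eq_one_iff, transvection_mem_center_iff] at h
  exact one_ne_zero h

lemma nonabelian : ∃ u v : PS, u * v ≠ v * u := by
  refine ⟨pr (SpecialLinearGroup.transvection (i := (0 : Fin 4)) (j := 1) (by decide) 1),
    pr (SpecialLinearGroup.transvection (i := (1 : Fin 4)) (j := 2) (by decide) 1), fun h => ?_⟩
  have h1 := Pool.Agent.H463R3.PSLn.transvection_commutator (F := ZMod 3) (ι := Fin 4)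
    (i := 0) (j := 2) (k := 1) (by decide) (by decide) (by decide) 1
  have h2 := pr_transvection_ne_one (i := 0) (j := 2) (by decide)
  rw [← h1, map_commutatorElement] at h2
  exact h2 (commutatorElement_eq_one_iff_mul_comm.2 h)

lemma conj_injective : Function.Injective (MulAut.conj : PS →* MulAut PS) := by
  rw [injective_iff_map_eq_one]
  intro a ha
  have hc : Subgroup.center PS = ⊥ := by
    rcases (inferInstance : (Subgroup.center PS).Normal).eq_bot_or_eq_top with h | h
    · exact h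
    · obtain ⟨u, v, huv⟩ := nonabelian
      have : u ∈ Subgroup.center PS := h ▸ Subgroup.mem_top u
      exact absurd ((Subgroup.mem_center_iff.1 this v).symm) huv
  have : a ∈ Subgroup.center PS := by
    rw [Subgroup.mem_center_iff]
    intro g
    have h1 : MulAut.conj a g = g := by rw [ha]; rfl
    rw [MulAut.conj_apply] at h1
    calc g * a = (a * g * a⁻¹) * a := by rw [h1]
      _ = a * g := by group
  rw [hc] at this
  exact Subgroup.mem_bot.1 this

lemma t_smul (w : V) : t • w = w + (w 1) • (Pi.single 0 1 : V) := by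
  rw [Matrix.SpecialLinearGroup.smul_def]
  change (SpecialLinearGroup.transvection (i := (0 : Fin 4)) (j := 1) (by decide) 1).1 *ᵥ w = _
  rw [transvection_coe, add_mulVec, one_mulVec, Matrix.single_mulVec_eq]
  simp

lemma t_smul_eq {w : V} (h : w 1 = 0) : t • w = w := by
  rw [t_smul, h, zero_smul, add_zero]

/-- Fewer than four conjugates of `t` fix a common nonzero vector. -/
lemma exists_common_fixed {m : ℕ} (hm : m < 4) (g : Fin m → G) :
    ∃ v : V, v ≠ 0 ∧ ∀ i, (g i * t * (g i)⁻¹) • v = v := by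
  let L : V →ₗ[ZMod 3] (Fin m → ZMod 3) :=
    LinearMap.pi (fun i => (LinearMap.proj (1 : Fin 4)).comp
      (Matrix.mulVecLin ((g i)⁻¹ : G).1))
  have hker : LinearMap.ker L ≠ ⊥ := by
    apply LinearMap.ker_ne_bot_of_finrank_lt
    simpa using hm
  obtain ⟨v, hv, hv0⟩ := Submodule.exists_mem_ne_zero_of_ne_bot hker
  refine ⟨v, hv0, fun i => ?_⟩
  have h1 : ((g i)⁻¹ • v) 1 = 0 := by
    have := congrFun (LinearMap.mem_ker.1 hv) i
    exact this
  rw [mul_smul, mul_smul, t_smul_eq h1, smul_inv_smul]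

/-- An element of order 5 of `SL_4(3)` fixes no nonzero vector. -/
lemma no_fixed_of_order_five {h : G} (h5 : orderOf h = 5) {v : V} (hv : v ≠ 0) : h • v ≠ v := by
  intro hfix
  have : Fact (Nat.Prime 5) := ⟨by norm_num⟩
  have : Fact (Nat.Prime 3) := ⟨by norm_num⟩
  -- the subgroup of fixed vectors
  let A : AddSubgroup V :=
    { carrier := {w | h • w = w}
      add_mem' := fun {a c} ha hc => by
        change h • (a + c) = a + c
        rw [smul_add, ha, hc]
      zero_mem' := smul_zero h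
      neg_mem' := fun {a} ha => by
        change h • (-a) = -a
        rw [smul_neg, ha] }
  have hcardV : Nat.card V = 81 := by
    rw [Nat.card_eq_fintype_card]
    simp [ZMod.card]
  have hA : Nat.card A ∣ 3 ^ 4 := by
    have := AddSubgroup.card_addSubgroup_dvd_card A
    rw [hcardV] at this
    exact this
  have hP : IsPGroup 5 (Subgroup.zpowers h) :=
    IsPGroup.of_card (n := 1) (by rw [Nat.card_zpowers, h5, pow_one])
  have hmod := hP.card_modEq_card_fixedPoints V
  have hfp : MulAction.fixedPoints (Subgroup.zpowers h) V = (A : Set V) := by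
    ext w
    constructor
    · intro hw
      exact hw ⟨h, Subgroup.mem_zpowers h⟩
    · rintro hw ⟨k, hk⟩
      obtain ⟨n, rfl⟩ := Subgroup.mem_zpowers_iff.1 hk
      have hst : h ∈ MulAction.stabilizer G w := hw
      exact (MulAction.stabilizer G w).zpow_mem hst n
  rw [hfp, hcardV] at hmod
  have hmod' : 81 ≡ Nat.card A [MOD 5] := hmod
  obtain ⟨k, hk, hk'⟩ := (Nat.dvd_prime_pow Nat.prime_three).1 hA
  rw [hk'] at hmod'
  have hk4 : k = 0 ∨ k = 4 := by
    interval_cases k <;> first | exact Or.inl rfl | exact Or.inr rfl | (exfalso; revert hmod'; decide)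
  rcases hk4 with rfl | rfl
  · have h1 : Nat.card A = 1 := hk'
    have : (⟨v, hfix⟩ : A) = 0 := (Nat.card_eq_one_iff_unique.1 h1).1.elim _ _
    exact hv (congrArg Subtype.val this)
  · have hAtop : A = ⊤ := by
      apply AddSubgroup.eq_top_of_card_eq
      rw [hk', hcardV]; norm_num
    have h1 : h = 1 := by
      apply Subtype.ext
      apply Matrix.ext_iff_smul.2
      intro w
      have hw : w ∈ A := hAtop ▸ AddSubgroup.mem_top w
      have hw' : h • w = w := hw
      rw [Matrix.SpecialLinearGroup.smul_def] at hw'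
      simpa using! hw'
    rw [h1, orderOf_one] at h5
    omega

lemma five_not_dvd {m : ℕ} (hm : m < 4) (g : Fin m → G) :
    ¬ 5 ∣ Nat.card (Subgroup.closure (Set.range fun i => g i * t * (g i)⁻¹)) := by
  intro hdvd
  have : Fact (Nat.Prime 5) := ⟨by norm_num⟩
  obtain ⟨⟨h, hh⟩, ho⟩ := exists_prime_orderOf_dvd_card' 5 hdvd
  obtain ⟨v, hv, hfix⟩ := exists_common_fixed hm g
  have hle : Subgroup.closure (Set.range fun i => g i * t * (g i)⁻¹) ≤
      MulAction.stabilizer G v := by
    rw [Subgroup.closure_le]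
    rintro _ ⟨i, rfl⟩
    exact hfix i
  have h5 : orderOf h = 5 := by
    rw [← ho]
    exact (Subgroup.orderOf_mk h hh).symm
  exact no_fixed_of_order_five h5 hv (hle hh)

/-- The automorphism: conjugation by the image of the transvection `t`. -/
noncomputable def x : MulAut PS := toAut t

lemma extendBy_x : extendBy PS x = (MulAut.conj : PS →* MulAut PS).range := by
  unfold extendBy
  rw [sup_eq_left, Subgroup.zpowers_le]
  exact ⟨pr t, rfl⟩

lemma three : (1 + 1 + 1 : ZMod 3) = 0 := by decide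

lemma orderOf_x : orderOf x = 3 := by
  have : Fact (Nat.Prime 3) := ⟨by norm_num⟩
  apply orderOf_eq_prime
  · change toAut t ^ 3 = 1
    rw [← map_pow]
    have : t ^ 3 = 1 := by
      unfold t
      rw [pow_succ, pow_succ, pow_one, ← transvection_add, ← transvection_add]
      rw [three, transvection_coeff_zero]
    rw [this, map_one]
  · intro h
    have h1 : MulAut.conj (pr t) = MulAut.conj 1 := by
      rw [map_one]; exact h
    exact pr_transvection_ne_one (i := 0) (j := 1) (by decide) (conj_injective h1)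

/-- signed permutation matrices conjugating `t` to the four transvections used -/
def c : Fin 4 → G := ![1,
  ⟨!![0, 0, 1, 0; 1, 0, 0, 0; 0, 1, 0, 0; 0, 0, 0, 1], by decide⟩,
  ⟨!![0, 0, 1, 0; 0, 0, 0, 1; 1, 0, 0, 0; 0, 1, 0, 0], by decide⟩,
  ⟨!![0, 1, 0, 0; 0, 0, 1, 0; 0, 0, 0, 2; 1, 0, 0, 0], by decide⟩]

/-- the four transvections -/
def e : Fin 4 → G := ![
  ⟨!![1, 1, 0, 0; 0, 1, 0, 0; 0, 0, 1, 0; 0, 0, 0, 1], by decide⟩,
  ⟨!![1, 0, 0, 0; 0, 1, 1, 0; 0, 0, 1, 0; 0, 0, 0, 1], by decide⟩,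
  ⟨!![1, 0, 0, 0; 0, 1, 0, 0; 0, 0, 1, 1; 0, 0, 0, 1], by decide⟩,
  ⟨!![1, 0, 0, 0; 0, 1, 0, 0; 0, 0, 1, 0; 1, 0, 0, 1], by decide⟩]

lemma e_eq (i : Fin 4) : c i * t * (c i)⁻¹ = e i := by
  rw [mul_inv_eq_iff_eq_mul]
  apply Subtype.ext
  fin_cases i <;> decide

/-- an element of order five -/
def w : G := ⟨!![2, 0, 2, 0; 0, 2, 0, 2; 2, 1, 2, 0; 0, 2, 1, 2], by decide⟩

def p1 : G := ⟨!![2, 1, 1, 1; 1, 1, 1, 1; 1, 0, 1, 1; 1, 0, 0, 1], by decide⟩
def p2 : G := ⟨!![1, 0, 1, 2; 2, 2, 0, 1; 1, 1, 2, 0; 0, 1, 1, 2], by decide⟩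
def w2 : G := ⟨!![2, 2, 2, 0; 0, 2, 2, 2; 2, 1, 2, 2; 2, 0, 1, 2], by decide⟩
def w4 : G := ⟨!![2, 1, 0, 2; 2, 0, 1, 0; 0, 2, 0, 1; 1, 2, 2, 0], by decide⟩

lemma w_eq : (e 0 * e 1 * e 2 * e 3) ^ 4 = w := by
  have h1 : e 0 * e 1 * e 2 * e 3 = p1 := by
    apply Subtype.ext; decide
  have h2 : p1 ^ 2 = p2 := by
    rw [pow_two]; apply Subtype.ext; decide
  have h3 : p2 ^ 2 = w := by
    rw [pow_two]; apply Subtype.ext; decide
  have h4 : p1 ^ 4 = (p1 ^ 2) ^ 2 := by rw [← pow_mul]
  rw [h1, h4, h2, h3]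

lemma w_pow_five : w ^ 5 = 1 := by
  have h1 : w ^ 2 = w2 := by
    rw [pow_two]; apply Subtype.ext; decide
  have h2 : w2 ^ 2 = w4 := by
    rw [pow_two]; apply Subtype.ext; decide
  have h3 : w4 * w = 1 := by
    apply Subtype.ext; decide
  have h4 : w ^ 5 = (w ^ 2) ^ 2 * w := by rw [← pow_mul, ← pow_succ]
  rw [h4, h1, h2, h3]

lemma pr_w_ne_one : pr w ≠ 1 := by
  intro h
  rw [QuotientGroup.mk'_apply, QuotientGroup.eq_one_iff, mem_center_iff] at h
  obtain ⟨r, _, hr⟩ := h
  have h02 : (scalar (Fin 4)) r 0 2 = w.1 0 2 := congrFun (congrFun hr 0) 2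
  have h1 : (scalar (Fin 4)) r 0 2 = 0 := by simp
  rw [h1] at h02
  exact absurd h02 (by decide)

lemma orderOf_toAut_w : orderOf (toAut w) = 5 := by
  have : Fact (Nat.Prime 5) := ⟨by norm_num⟩
  apply orderOf_eq_prime
  · rw [← map_pow, w_pow_five, map_one]
  · intro h
    have h1 : MulAut.conj (pr w) = MulAut.conj 1 := by
      rw [map_one]; exact h
    exact pr_w_ne_one (conj_injective h1)

lemma orderOf_pr_w : orderOf (pr w) = 5 := by
  have : Fact (Nat.Prime 5) := ⟨by norm_num⟩
  apply orderOf_eq_prime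
  · rw [← map_pow, w_pow_five, map_one]
  · exact pr_w_ne_one

lemma four_mem : 4 ∈ generationNumbers 5 PS x := by
  refine ⟨by norm_num, fun i => toAut (e i), fun i => ⟨toAut (c i), ?_, ?_⟩, ?_⟩
  · rw [extendBy_x]
    exact ⟨pr (c i), rfl⟩
  · rw [x, ← map_mul, ← map_inv, ← map_mul, e_eq]
  · have hmem : toAut w ∈ Subgroup.closure (Set.range fun i : Fin 4 => toAut (e i)) := by
      rw [← w_eq, map_pow, map_mul, map_mul, map_mul]
      refine Subgroup.pow_mem _ (mul_mem (mul_mem (mul_mem ?_ ?_) ?_) ?_) 4 <;>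
        exact Subgroup.subset_closure ⟨_, rfl⟩
    have h := orderOf_dvd_natCard (⟨toAut w, hmem⟩ :
      Subgroup.closure (Set.range fun i : Fin 4 => toAut (e i)))
    rwa [Subgroup.orderOf_mk, orderOf_toAut_w] at h

lemma four_le {m : ℕ} (hm : m ∈ generationNumbers 5 PS x) : 4 ≤ m := by
  by_contra hlt
  push Not at hlt
  obtain ⟨_, y, hy, hdvd⟩ := hm
  rw [extendBy_x] at hy
  choose g hg hyg using hy
  choose s hs using hg
  choose g' hg' using fun i => QuotientGroup.mk'_surjective (Subgroup.center G) (s i)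
  have hyi : ∀ i, y i = toAut (g' i * t * (g' i)⁻¹) := by
    intro i
    rw [hyg, ← hs, ← hg', x, map_mul, map_mul, map_inv]
    rfl
  have hrange : Set.range y = toAut '' (Set.range fun i => g' i * t * (g' i)⁻¹) := by
    ext z
    constructor
    · rintro ⟨i, rfl⟩
      exact ⟨_, ⟨i, rfl⟩, (hyi i).symm⟩
    · rintro ⟨_, ⟨i, rfl⟩, rfl⟩
      exact ⟨i, hyi i⟩
  rw [hrange, ← MonoidHom.map_closure] at hdvd
  exact five_not_dvd hlt g' (hdvd.trans (Subgroup.card_map_dvd _ _))

theorem beta_eq : beta 5 PS x = 4 := by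
  apply le_antisymm
  · exact Nat.sInf_le four_mem
  · exact four_le (Nat.sInf_mem ⟨4, four_mem⟩)

/-- Equality `β_{r,S}(x) = b(r)` holds for `r = 5`, `S = PSL_4(3)` and an automorphism `x`
(conjugation by a transvection) of order `3`. Hence the answer to Q1 is negative. -/
theorem result :
    (IsSimpleGroup (Matrix.ProjectiveSpecialLinearGroup (Fin 4) (ZMod 3)) ∧
      ∃ x : MulAut (Matrix.ProjectiveSpecialLinearGroup (Fin 4) (ZMod 3)),
        orderOf x = 3 ∧
          beta 5 (Matrix.ProjectiveSpecialLinearGroup (Fin 4) (ZMod 3)) x = b 5) ∧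
    ¬ Q1 := by
  have hb : b 5 = 4 := by simp [b]
  refine ⟨⟨inferInstance, x, orderOf_x, beta_eq.trans hb.symm⟩, fun hQ => ?_⟩
  have h5 : 5 ∣ Nat.card PS := orderOf_pr_w ▸ orderOf_dvd_natCard (pr w)
  have hx1 : x ≠ 1 := by
    intro h
    have := orderOf_x
    rw [h, orderOf_one] at this
    omega
  have h2 := hQ PS inferInstance nonabelian 5 (by norm_num) (by norm_num) h5 x hx1
    (beta_eq.trans hb.symm)
  rw [orderOf_x] at h2
  omega

end Pool.Agent.Results.MP_462fed_al.NoninvolutionEquality
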